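import Pool.Agent.Y234.GS.StmA

/-!
# Project GS, part REF: refinement of covers for Cech complexes in a field
-/

set_option autoImplicit false

namespace Pool.Agent.Y340.GS

open Pool.Agent.Y234.GS

section comb

variable {κ L : Type} [LinearOrder κ] [AddCommGroup L]

/-- The sign of an element relative to a finset. -/
def sg (i : κ) (S : Finset κ) : ℤ := (-1 : ℤ) ^ (S.filter (fun u => u < i)).card

theorem dd_eq (c : Finset κ → L) (S : Finset κ) :
    dd c S = ∑ i ∈ S, sg i S • c (S.erase i) := rfl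

theorem sg_mul_self (i : κ) (S : Finset κ) : sg i S * sg i S = 1 := by
  unfold sg
  rw [← mul_pow]
  norm_num

theorem sg_erase_self (i : κ) (S : Finset κ) : sg i (S.erase i) = sg i S := by
  unfold sg
  congr 2
  ext u
  simp only [Finset.mem_filter, Finset.mem_erase]
  constructor
  · rintro ⟨⟨_, h⟩, h'⟩
    exact ⟨h, h'⟩
  · rintro ⟨h, h'⟩
    exact ⟨⟨ne_of_lt h', h⟩, h'⟩

theorem sg_insert_self (i : κ) (S : Finset κ) : sg i (insert i S) = sg i S := by
  unfold sg
  congr 2
  ext u
  simp only [Finset.mem_filter, Finset.mem_insert]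
  constructor
  · rintro ⟨h | h, h'⟩
    · exact absurd h' (by rw [h]; exact lt_irrefl _)
    · exact ⟨h, h'⟩
  · rintro ⟨h, h'⟩
    exact ⟨Or.inr h, h'⟩

theorem sg_insert_of_lt {i u : κ} {S : Finset κ} (hi : i ∉ S) (h : i < u) :
    sg u (insert i S) = - sg u S := by
  unfold sg
  rw [Finset.filter_insert, if_pos h, Finset.card_insert_of_notMem, pow_succ]
  · ring
  · intro h'
    exact hi (Finset.mem_of_mem_filter _ h')

theorem sg_insert_of_not_lt {i u : κ} {S : Finset κ} (h : ¬ i < u) :
    sg u (insert i S) = sg u S := by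
  unfold sg
  rw [Finset.filter_insert, if_neg h]

theorem sg_erase_of_lt {i u : κ} {S : Finset κ} (hu : u ∈ S) (h : u < i) :
    sg i (S.erase u) = - sg i S := by
  have h1 := sg_insert_of_lt (S := S.erase u) (Finset.notMem_erase u S) h
  rw [Finset.insert_erase hu] at h1
  rw [h1, neg_neg]

theorem sg_erase_of_not_lt {i u : κ} {S : Finset κ} (hu : u ∈ S) (h : ¬ u < i) :
    sg i (S.erase u) = sg i S := by
  have h1 := sg_insert_of_not_lt (S := S.erase u) h
  rw [Finset.insert_erase hu] at h1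
  exact h1.symm

/-- Contraction. -/
def KK (i : κ) (c : Finset κ → L) (S : Finset κ) : L :=
  if i ∈ S then 0 else sg i S • c (insert i S)

theorem homot (i : κ) (c : Finset κ → L) (S : Finset κ) :
    dd (KK i c) S + KK i (dd c) S = c S := by
  by_cases hi : i ∈ S
  · have h1 : dd (KK i c) S = c S := by
      rw [dd_eq, Finset.sum_eq_single i]
      · unfold KK
        rw [if_neg (Finset.notMem_erase i S), Finset.insert_erase hi, sg_erase_self, smul_smul,
          sg_mul_self, one_smul]
      · intro u _ hne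
        unfold KK
        rw [if_pos (Finset.mem_erase.2 ⟨hne.symm, hi⟩), smul_zero]
      · intro h
        exact absurd hi h
    rw [h1]
    unfold KK
    rw [if_pos hi, add_zero]
  · have h2 : KK i (dd c) S = c S + ∑ u ∈ S, (sg i S * sg u (insert i S)) •
        c ((insert i S).erase u) := by
      unfold KK
      rw [if_neg hi, dd_eq, Finset.sum_insert hi, smul_add, Finset.erase_insert hi,
        sg_insert_self, smul_smul, sg_mul_self, one_smul, Finset.smul_sum]
      congr 1
      exact Finset.sum_congr rfl (fun u _ => by rw [smul_smul])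
    have h3 : dd (KK i c) S = ∑ u ∈ S, (sg u S * sg i (S.erase u)) •
        c ((insert i S).erase u) := by
      rw [dd_eq]
      refine Finset.sum_congr rfl (fun u hu => ?_)
      have hne : u ≠ i := fun h => hi (h ▸ hu)
      unfold KK
      rw [if_neg (fun h => hi (Finset.mem_of_mem_erase h)), smul_smul,
        Finset.erase_insert_of_ne hne.symm]
    rw [h2, h3]
    have h4 : ∑ u ∈ S, (sg u S * sg i (S.erase u)) • c ((insert i S).erase u) +
        ∑ u ∈ S, (sg i S * sg u (insert i S)) • c ((insert i S).erase u) = 0 := by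
      rw [← Finset.sum_add_distrib]
      refine Finset.sum_eq_zero (fun u hu => ?_)
      have hne : u ≠ i := fun h => hi (h ▸ hu)
      rw [← add_smul]
      rcases lt_or_gt_of_ne hne with h | h
      · rw [sg_erase_of_lt hu h, sg_insert_of_not_lt (not_lt_of_gt h)]
        have : sg u S * -sg i S + sg i S * sg u S = 0 := by ring
        rw [this, zero_smul]
      · rw [sg_erase_of_not_lt hu (not_lt_of_gt h), sg_insert_of_lt hi h]
        have : sg u S * sg i S + sg i S * -sg u S = 0 := by ring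
        rw [this, zero_smul]
    rw [add_comm (c S), ← add_assoc, h4, zero_add]

theorem dd_add (c c' : Finset κ → L) (S : Finset κ) :
    dd (fun T => c T + c' T) S = dd c S + dd c' S := by
  simp only [dd_eq, smul_add, Finset.sum_add_distrib]

theorem dd_sub (c c' : Finset κ → L) (S : Finset κ) :
    dd (fun T => c T - c' T) S = dd c S - dd c' S := by
  simp only [dd_eq, smul_sub, Finset.sum_sub_distrib]

theorem dd_congr {c c' : Finset κ → L} {S : Finset κ}
    (h : ∀ u ∈ S, c (S.erase u) = c' (S.erase u)) : dd c S = dd c' S := by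
  rw [dd_eq, dd_eq]
  exact Finset.sum_congr rfl (fun u hu => by rw [h u hu])

theorem dd_eq_zero {c : Finset κ → L} {S : Finset κ}
    (h : ∀ u ∈ S, c (S.erase u) = 0) : dd c S = 0 := by
  rw [dd_eq]
  exact Finset.sum_eq_zero (fun u hu => by rw [h u hu, smul_zero])

theorem dd_dd_aux (S : Finset κ) : ∀ c : Finset κ → L, dd (dd c) S = 0 := by
  induction S using Finset.induction_on with
  | empty =>
    intro c
    rw [dd_eq, Finset.sum_empty]
  | insert i S hi ih =>
    intro c
    -- `dd dd K + dd K dd = dd`, `dd K dd + K dd dd = dd`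
    have h1 : dd (dd (KK i c)) S + dd (KK i (dd c)) S = dd c S := by
      rw [← dd_add]
      exact dd_congr (fun u _ => homot i c _)
    have h2 := homot i (dd c) S
    rw [ih, zero_add] at h1
    rw [h1] at h2
    have h3 : KK i (dd (dd c)) S = 0 := by
      have := h2
      simpa using this
    unfold KK at h3
    rw [if_neg hi] at h3
    have h4 : sg i S • (sg i S • dd (dd c) (insert i S)) = 0 := by rw [h3, smul_zero]
    rwa [smul_smul, sg_mul_self, one_smul] at h4

end comb

section sec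

variable {κ L : Type} [LinearOrder κ] {O : Type} [CommRing O] [Field L] [Algebra O L]

theorem dd_mul (h : L) (c : Finset κ → L) (S : Finset κ) :
    dd (fun T => h * c T) S = h * dd c S := by
  rw [dd_eq, dd_eq, Finset.mul_sum]
  exact Finset.sum_congr rfl (fun u _ => by rw [mul_smul_comm])

theorem dd_sum {ι : Type} (s : Finset ι) (c : ι → Finset κ → L) (S : Finset κ) :
    dd (fun T => ∑ i ∈ s, c i T) S = ∑ i ∈ s, dd (c i) S := by
  simp only [dd_eq, Finset.smul_sum]
  exact Finset.sum_comm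

variable (W : Submodule O L) (f : κ → L) (hf : ∀ k, f k ∈ W)

include hf in
theorem prod_mem (S : Finset κ) : ∏ i ∈ S, f i ∈ W ^ S.card := by
  induction S using Finset.induction_on with
  | empty =>
    rw [Finset.prod_empty, Finset.card_empty, pow_zero]
    exact Submodule.one_le.1 le_rfl
  | insert i S hi ih =>
    rw [Finset.prod_insert hi, Finset.card_insert_of_notMem hi, pow_succ']
    exact Submodule.mul_mem_mul (hf i) ih

theorem pow_mem_pow {a : L} {n : ℕ} (h : a ∈ W ^ n) (N : ℕ) : a ^ N ∈ W ^ (n * N) := by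
  rw [pow_mul]
  exact Submodule.pow_mem_pow _ h N

theorem mul_mem_add {a b : L} {n m : ℕ} (ha : a ∈ W ^ n) (hb : b ∈ W ^ m) :
    a * b ∈ W ^ (n + m) := by
  rw [pow_add]
  exact Submodule.mul_mem_mul ha hb

include hf in
/-- The exponent in the definition of `Sec` can be raised. -/
theorem raise {m : ℤ} {S : Finset κ} {a : L} {N e : ℕ} (he : (e : ℤ) = m + N * S.card)
    (h : (∏ i ∈ S, f i) ^ N * a ∈ W ^ e) (N' : ℕ) (hN : N ≤ N') :
    ∃ e' : ℕ, (e' : ℤ) = m + N' * S.card ∧ (∏ i ∈ S, f i) ^ N' * a ∈ W ^ e' := by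
  obtain ⟨k, rfl⟩ := Nat.exists_eq_add_of_le hN
  refine ⟨S.card * k + e, ?_, ?_⟩
  · push_cast
    rw [he]
    ring
  · rw [show (∏ i ∈ S, f i) ^ (N + k) * a = (∏ i ∈ S, f i) ^ k * ((∏ i ∈ S, f i) ^ N * a) by ring]
    exact mul_mem_add W (pow_mem_pow W (prod_mem W f hf S) k) h

include hf in
theorem sec_add {m : ℤ} {S : Finset κ} {a b : L} (ha : a ∈ Sec W f m S) (hb : b ∈ Sec W f m S) :
    a + b ∈ Sec W f m S := by
  obtain ⟨N, e, he, h⟩ := ha
  obtain ⟨N', e', he', h'⟩ := hb
  obtain ⟨e1, he1, h1⟩ := raise W f hf he h (max N N') (le_max_left _ _)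
  obtain ⟨e2, he2, h2⟩ := raise W f hf he' h' (max N N') (le_max_right _ _)
  have : e1 = e2 := by
    have := he1.trans he2.symm
    exact_mod_cast this
  subst this
  exact ⟨max N N', e1, he1, by rw [mul_add]; exact Submodule.add_mem _ h1 h2⟩

omit [LinearOrder κ] in
theorem sec_neg {m : ℤ} {S : Finset κ} {a : L} (ha : a ∈ Sec W f m S) : -a ∈ Sec W f m S := by
  obtain ⟨N, e, he, h⟩ := ha
  exact ⟨N, e, he, by rw [mul_neg]; exact Submodule.neg_mem _ h⟩

omit [LinearOrder κ] in
theorem sec_zero {m : ℤ} {S : Finset κ} (hS : S.Nonempty) : (0 : L) ∈ Sec W f m S := by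
  refine ⟨m.natAbs, (m + m.natAbs * S.card).toNat, ?_, ?_⟩
  · rw [Int.toNat_of_nonneg]
    have h1 : (1 : ℤ) ≤ S.card := by exact_mod_cast hS.card_pos
    have h2 : -m ≤ m.natAbs := by omega
    nlinarith [Int.natCast_nonneg m.natAbs]
  · rw [mul_zero]
    exact Submodule.zero_mem _

include hf in
theorem sec_sub {m : ℤ} {S : Finset κ} {a b : L} (ha : a ∈ Sec W f m S) (hb : b ∈ Sec W f m S) :
    a - b ∈ Sec W f m S := by
  rw [sub_eq_add_neg]
  exact sec_add W f hf ha (sec_neg W f hb)

theorem sec_zsmul_sg {m : ℤ} {S : Finset κ} {a : L} (ha : a ∈ Sec W f m S) (i : κ)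
    (T : Finset κ) : sg i T • a ∈ Sec W f m S := by
  unfold sg
  rcases neg_one_pow_eq_or ℤ (T.filter (fun u => u < i)).card with h | h
  · rw [h, one_smul]
    exact ha
  · rw [h, neg_smul, one_smul]
    exact sec_neg W f ha

include hf in
theorem sec_sum {ι : Type} {m : ℤ} {S : Finset κ} (hS : S.Nonempty) (s : Finset ι) (a : ι → L)
    (ha : ∀ i ∈ s, a i ∈ Sec W f m S) : ∑ i ∈ s, a i ∈ Sec W f m S := by
  classical
  induction s using Finset.induction_on with
  | empty =>
    rw [Finset.sum_empty]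
    exact sec_zero W f hS
  | insert i s hi ih =>
    rw [Finset.sum_insert hi]
    exact sec_add W f hf (ha i (Finset.mem_insert_self _ _))
      (ih (fun j hj => ha j (Finset.mem_insert_of_mem hj)))

include hf in
theorem sec_erase {m : ℤ} {S : Finset κ} {u : κ} (hu : u ∈ S) {a : L}
    (ha : a ∈ Sec W f m (S.erase u)) : a ∈ Sec W f m S := by
  obtain ⟨N, e, he, h⟩ := ha
  refine ⟨N, N + e, ?_, ?_⟩
  · have h1 : (S.card : ℤ) = (S.erase u).card + 1 := by
      rw [Finset.card_erase_of_mem hu]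
      have := Finset.card_pos.2 ⟨u, hu⟩
      omega
    push_cast
    rw [he, h1]
    ring
  · rw [← Finset.mul_prod_erase S f hu, mul_pow, mul_assoc]
    refine mul_mem_add W ?_ h
    have := pow_mem_pow W (n := 1) (a := f u) (by rw [pow_one]; exact hf u) N
    rwa [one_mul] at this

include hf in
theorem sec_dd {m : ℤ} {S : Finset κ} (hS : S.Nonempty) (c : Finset κ → L)
    (hc : ∀ u ∈ S, c (S.erase u) ∈ Sec W f m (S.erase u)) : dd c S ∈ Sec W f m S := by
  rw [dd_eq]
  exact sec_sum W f hf hS S _ (fun u hu =>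
    sec_zsmul_sg W f (sec_erase W f hf hu (hc u hu)) u S)

/-- The ring of fractions of degree zero with denominators powers of `g`. -/
def Rg (g : L) (hg : g ∈ W) : Subring L where
  carrier := {a | ∃ M : ℕ, g ^ M * a ∈ W ^ M}
  mul_mem' := by
    rintro a b ⟨M, hM⟩ ⟨M', hM'⟩
    refine ⟨M + M', ?_⟩
    rw [show g ^ (M + M') * (a * b) = (g ^ M * a) * (g ^ M' * b) by ring]
    exact mul_mem_add W hM hM'
  one_mem' := ⟨0, by rw [pow_zero, pow_zero, mul_one]; exact Submodule.one_le.1 le_rfl⟩
  add_mem' := by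
    rintro a b ⟨M, hM⟩ ⟨M', hM'⟩
    have hgp : ∀ k : ℕ, g ^ k ∈ W ^ k := fun k => by
      have := pow_mem_pow W (n := 1) (a := g) (by rw [pow_one]; exact hg) k
      rwa [one_mul] at this
    refine ⟨M + M', ?_⟩
    rw [show g ^ (M + M') * (a + b) = (g ^ M * a) * g ^ M' + g ^ M * (g ^ M' * b) by ring]
    exact Submodule.add_mem _ (mul_mem_add W hM (hgp M')) (mul_mem_add W (hgp M) hM')
  zero_mem' := ⟨0, by rw [mul_zero]; exact Submodule.zero_mem _⟩
  neg_mem' := by
    rintro a ⟨M, hM⟩
    exact ⟨M, by rw [mul_neg]; exact Submodule.neg_mem _ hM⟩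

theorem mem_pow_self {g : L} (hg : g ∈ W) (k : ℕ) : g ^ k ∈ W ^ k := by
  have := pow_mem_pow W (n := 1) (a := g) (by rw [pow_one]; exact hg) k
  rwa [one_mul] at this

/-- Partition of unity. -/
theorem pou {ι : Type} [Fintype ι] (F : ι → L) (hF : ∀ i, F i ∈ W) (hcov : Cover W F) (g : L)
    (hg : g ∈ W) (hg0 : g ≠ 0) (n : ℕ) :
    ∃ (s : ι → L) (M : ℕ), (∀ i, g ^ M * s i ∈ W ^ M) ∧ ∑ i, (F i / g) ^ n * s i = 1 := by
  classical
  obtain ⟨N, hN⟩ := hcov
  obtain ⟨r, hr, hgr⟩ := hN (g ^ (N + 1)) (mem_pow_self W hg (N + 1))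
  have ht : ∀ i, F i / g ∈ Rg W g hg := fun i => by
    refine ⟨1, ?_⟩
    rw [pow_one, pow_one, mul_div_cancel₀ _ hg0]
    exact hF i
  have hr' : ∀ i, r i / g ^ N ∈ Rg W g hg := fun i => by
    refine ⟨N, ?_⟩
    rw [mul_div_cancel₀ _ (pow_ne_zero _ hg0)]
    exact hr i
  have hspan : Ideal.span (Set.range (fun i => (⟨F i / g, ht i⟩ : Rg W g hg))) = ⊤ := by
    rw [Ideal.eq_top_iff_one, Ideal.mem_span_range_iff_exists_fun]
    refine ⟨fun i => ⟨r i / g ^ N, hr' i⟩, ?_⟩
    apply Subtype.ext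
    push_cast
    have h1 : (∑ i, r i / g ^ N * (F i / g)) = (∑ i, F i * r i) / g ^ (N + 1) := by
      rw [Finset.sum_div]
      refine Finset.sum_congr rfl (fun i _ => ?_)
      rw [div_mul_div_comm, pow_succ, mul_comm (r i)]
    rw [h1, ← hgr, div_self (pow_ne_zero _ hg0)]
  have hspan2 := Ideal.span_pow_eq_top _ hspan n
  rw [← Set.range_comp, Ideal.eq_top_iff_one, Ideal.mem_span_range_iff_exists_fun] at hspan2
  obtain ⟨c, hc⟩ := hspan2
  have hc' : ∑ i, ((c i : L)) * (F i / g) ^ n = 1 := by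
    have := congrArg (Subtype.val) hc
    push_cast at this
    exact this
  choose M hM using fun i => (c i).2
  refine ⟨fun i => c i, ∑ i, M i, fun i => ?_, ?_⟩
  · have hle : M i ≤ ∑ i, M i := Finset.single_le_sum (fun _ _ => Nat.zero_le _) (Finset.mem_univ i)
    obtain ⟨k, hk⟩ := Nat.exists_eq_add_of_le hle
    have h1 : g ^ (M i + k) * (c i : L) = (g ^ M i * (c i : L)) * g ^ k := by ring
    rw [hk]
    show g ^ (M i + k) * (c i : L) ∈ W ^ (M i + k)
    rw [h1]
    exact mul_mem_add W (hM i) (mem_pow_self W hg k)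
  · rw [← hc']
    exact Finset.sum_congr rfl (fun i _ => mul_comm _ _)

include hf in
/-- The section estimate. -/
theorem sec_contract {m : ℤ} {S : Finset κ} {g i : κ} (hg : g ∈ S) (hi : i ∉ S) (hg0 : f g ≠ 0)
    {a s : L} {N e n M : ℕ} (hN : (e : ℤ) = m + N * (insert i S).card)
    (ha : (∏ k ∈ insert i S, f k) ^ N * a ∈ W ^ e) (hn : N ≤ n)
    (hs : f g ^ M * s ∈ W ^ M) : (f i / f g) ^ n * s * a ∈ Sec W f m S := by
  obtain ⟨q, rfl⟩ := Nat.exists_eq_add_of_le hn
  refine ⟨N + ((N + q) + M), (S.erase g).card * ((N + q) + M) + (e + (q + M)), ?_, ?_⟩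
  · have h1 : (S.card : ℤ) = (S.erase g).card + 1 := by
      rw [Finset.card_erase_of_mem hg]
      have := Finset.card_pos.2 ⟨g, hg⟩
      omega
    rw [Finset.card_insert_of_notMem hi] at hN
    push_cast at hN ⊢
    rw [hN, h1]
    ring
  · have h1 : (∏ k ∈ S, f k) ^ (N + ((N + q) + M)) * ((f i / f g) ^ (N + q) * s * a) =
        (∏ k ∈ S.erase g, f k) ^ ((N + q) + M) * (((∏ k ∈ insert i S, f k) ^ N * a) *
          ((f i) ^ q * (f g ^ M * s))) := by
      rw [Finset.prod_insert hi, ← Finset.mul_prod_erase S f hg, div_pow]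
      field_simp
      ring
    rw [h1]
    refine mul_mem_add W (pow_mem_pow W (prod_mem W f hf _) _) ?_
    refine mul_mem_add W ha ?_
    exact mul_mem_add W (mem_pow_self W (hf i) q) hs

include hf in
/-- Exactness over the open set `f g ≠ 0`. -/
theorem key [Fintype κ] {ι : Type} [Fintype ι] (e : ι → κ)
    (hcov : Cover W (fun i => f (e i))) (A : Finset κ) (hA : ∀ i, e i ∈ A) (g : κ) (hgA : g ∉ A)
    (hg0 : f g ≠ 0) (m : ℤ) (j : ℕ) (z : Finset κ → L) (hz0 : ∀ S, g ∉ S → z S = 0)
    (hz : ∀ S ⊆ insert g A, S.card = j + 1 → g ∈ S → z S ∈ Sec W f m S)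
    (hzc : ∀ S ⊆ insert g A, S.card = j + 2 → dd z S = 0) :
    ∃ b : Finset κ → L, (∀ S, g ∉ S → b S = 0) ∧
      (∀ S ⊆ insert g A, S.card = j → g ∈ S → b S ∈ Sec W f m S) ∧
      ∀ S ⊆ insert g A, S.card = j + 1 → z S = dd b S := by
  classical
  have hex : ∀ S : Finset κ, ∃ N : ℕ, S ⊆ insert g A → S.card = j + 1 → g ∈ S →
      ∃ e : ℕ, (e : ℤ) = m + N * S.card ∧ (∏ i ∈ S, f i) ^ N * z S ∈ W ^ e := by
    intro S
    by_cases h : S ⊆ insert g A ∧ S.card = j + 1 ∧ g ∈ S
    · obtain ⟨N, e, he⟩ := hz S h.1 h.2.1 h.2.2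
      exact ⟨N, fun _ _ _ => ⟨e, he⟩⟩
    · exact ⟨0, fun h1 h2 h3 => absurd ⟨h1, h2, h3⟩ h⟩
  choose NN hNN using hex
  obtain ⟨s, M, hs, hsum⟩ := pou W (fun i => f (e i)) (fun i => hf _) hcov (f g) (hf g) hg0
    (∑ S, NN S)
  set n := ∑ S, NN S with hn
  refine ⟨fun S => ∑ i, ((f (e i) / f g) ^ n * s i) * KK (e i) z S, ?_, ?_, ?_⟩
  · intro S hS
    refine Finset.sum_eq_zero (fun i _ => ?_)
    have h1 : KK (e i) z S = 0 := by
      unfold KK
      split_ifs with h
      · rfl
      · rw [hz0, smul_zero]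
        intro h'
        rcases Finset.mem_insert.1 h' with h' | h'
        · exact hgA (h' ▸ hA i)
        · exact hS h'
    rw [h1, mul_zero]
  · intro S hS hcard hgS
    refine sec_sum W f hf ⟨g, hgS⟩ _ _ (fun i _ => ?_)
    by_cases hi : e i ∈ S
    · have h1 : KK (e i) z S = 0 := by
        unfold KK
        rw [if_pos hi]
      rw [h1, mul_zero]
      exact sec_zero W f ⟨g, hgS⟩
    · have h1 : KK (e i) z S = sg (e i) S • z (insert (e i) S) := by
        unfold KK
        rw [if_neg hi]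
      rw [h1, mul_smul_comm]
      refine sec_zsmul_sg W f ?_ _ _
      obtain ⟨e', he', hmem⟩ := hNN (insert (e i) S)
        (Finset.insert_subset (Finset.mem_insert_of_mem (hA i)) hS)
        (by rw [Finset.card_insert_of_notMem hi, hcard]) (Finset.mem_insert_of_mem hgS)
      exact sec_contract W f hf hgS hi hg0 he' hmem
        (Finset.single_le_sum (fun _ _ => Nat.zero_le _) (Finset.mem_univ (insert (e i) S))) (hs i)
  · intro S hS hcard
    have h1 : dd (fun T => ∑ i, ((f (e i) / f g) ^ n * s i) * KK (e i) z T) S =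
        ∑ i, ((f (e i) / f g) ^ n * s i) * dd (KK (e i) z) S := by
      rw [dd_sum]
      exact Finset.sum_congr rfl (fun i _ => dd_mul _ _ _)
    have h2 : ∀ i, dd (KK (e i) z) S = z S := by
      intro i
      have h3 := homot (e i) z S
      have h4 : KK (e i) (dd z) S = 0 := by
        unfold KK
        split_ifs with h
        · rfl
        · rw [hzc (insert (e i) S) (Finset.insert_subset (Finset.mem_insert_of_mem (hA i)) hS)
            (by rw [Finset.card_insert_of_notMem h, hcard]), smul_zero]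
      rwa [h4, add_zero] at h3
    rw [h1, Finset.sum_congr rfl (fun i _ => by rw [h2 i]), ← Finset.sum_mul, hsum, one_mul]

/-- Cocycles on the sets contained in `A`. -/
def CyOn (A : Finset κ) (m : ℤ) (j : ℕ) (c : Finset κ → L) : Prop :=
  (∀ S ⊆ A, S.card = j → c S ∈ Sec W f m S) ∧ ∀ S ⊆ A, S.card = j + 1 → dd c S = 0

include hf in
theorem extend_step [Fintype κ] {ι : Type} [Fintype ι] (e : ι → κ)
    (hcov : Cover W (fun i => f (e i))) (A : Finset κ) (hA : ∀ i, e i ∈ A) (g : κ) (hgA : g ∉ A)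
    (hg0 : f g ≠ 0) (m : ℤ) (j : ℕ) (hj : 1 ≤ j) (h : Finset κ → L) (hh : CyOn W f A m j h) :
    ∃ h' : Finset κ → L, CyOn W f (insert g A) m j h' ∧ ∀ S ⊆ A, h' S = h S := by
  classical
  set c : Finset κ → L := fun S => if g ∈ S then 0 else h S with hc
  set z : Finset κ → L := fun S => if g ∈ S then dd c S else 0 with hzdef
  have hsubA : ∀ S ⊆ insert g A, g ∉ S → S ⊆ A := fun S hS hgS x hx => by
    rcases Finset.mem_insert.1 (hS hx) with h' | h'
    · exact absurd (h' ▸ hx) hgS
    · exact h'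
  have hcA : ∀ S : Finset κ, g ∉ S → c S = h S := fun S hS => by
    simp only [hc, if_neg hS]
  have hddA : ∀ S : Finset κ, g ∉ S → dd c S = dd h S := fun S hS =>
    dd_congr (fun u _ => hcA _ (fun h' => hS (Finset.mem_of_mem_erase h')))
  have hcsec : ∀ S ⊆ insert g A, S.card = j → c S ∈ Sec W f m S := fun S hS hcard => by
    have hne : S.Nonempty := Finset.card_pos.1 (by omega)
    by_cases hgS : g ∈ S
    · simp only [hc, if_pos hgS]
      exact sec_zero W f hne
    · rw [hcA S hgS]
      exact hh.1 S (hsubA S hS hgS) hcard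
  have hzz : ∀ S ⊆ insert g A, S.card = j + 1 → z S = dd c S := fun S hS hcard => by
    by_cases hgS : g ∈ S
    · simp only [hzdef, if_pos hgS]
    · simp only [hzdef, if_neg hgS]
      rw [hddA S hgS, hh.2 S (hsubA S hS hgS) hcard]
  obtain ⟨b, hb0, hbs, hbd⟩ := key W f hf e hcov A hA g hgA hg0 m j z
    (fun S hS => by simp only [hzdef, if_neg hS])
    (fun S hS hcard hgS => by
      rw [hzz S hS hcard]
      refine sec_dd W f hf ⟨g, hgS⟩ c (fun u hu => ?_)
      exact hcsec _ ((Finset.erase_subset _ _).trans hS)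
        (by rw [Finset.card_erase_of_mem hu, hcard]; rfl))
    (fun S hS hcard => by
      rw [dd_congr (c' := dd c) (fun u hu => hzz _ ((Finset.erase_subset _ _).trans hS)
        (by rw [Finset.card_erase_of_mem hu, hcard]; rfl))]
      exact dd_dd_aux S c)
  refine ⟨fun S => c S - b S, ⟨?_, ?_⟩, ?_⟩
  · intro S hS hcard
    have hne : S.Nonempty := Finset.card_pos.1 (by omega)
    refine sec_sub W f hf (hcsec S hS hcard) ?_
    by_cases hgS : g ∈ S
    · exact hbs S hS hcard hgS
    · rw [hb0 S hgS]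
      exact sec_zero W f hne
  · intro S hS hcard
    rw [dd_sub, ← hbd S hS hcard, hzz S hS hcard, sub_self]
  · intro S hS
    have hgS : g ∉ S := fun h' => hgA (hS h')
    simp only [hcA S hgS, hb0 S hgS, sub_zero]

include hf in
theorem bound_step [Fintype κ] {ι : Type} [Fintype ι] (e : ι → κ)
    (hcov : Cover W (fun i => f (e i))) (A : Finset κ) (hA : ∀ i, e i ∈ A) (g : κ) (hgA : g ∉ A)
    (hg0 : f g ≠ 0) (m : ℤ) (j : ℕ) (hj : 1 ≤ j) (h : Finset κ → L)
    (hh : CyOn W f (insert g A) m (j + 1) h)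
    (hb : ∃ b : Finset κ → L, (∀ S ⊆ A, S.card = j → b S ∈ Sec W f m S) ∧
      ∀ S ⊆ A, S.card = j + 1 → h S = dd b S) :
    ∃ b : Finset κ → L, (∀ S ⊆ insert g A, S.card = j → b S ∈ Sec W f m S) ∧
      ∀ S ⊆ insert g A, S.card = j + 1 → h S = dd b S := by
  classical
  obtain ⟨b0, hb0, hb0d⟩ := hb
  set c : Finset κ → L := fun S => if g ∈ S then 0 else b0 S with hc
  set z : Finset κ → L := fun S => if g ∈ S then h S - dd c S else 0 with hzdef
  have hsubA : ∀ S ⊆ insert g A, g ∉ S → S ⊆ A := fun S hS hgS x hx => by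
    rcases Finset.mem_insert.1 (hS hx) with h' | h'
    · exact absurd (h' ▸ hx) hgS
    · exact h'
  have hcA : ∀ S : Finset κ, g ∉ S → c S = b0 S := fun S hS => by
    simp only [hc, if_neg hS]
  have hddA : ∀ S : Finset κ, g ∉ S → dd c S = dd b0 S := fun S hS =>
    dd_congr (fun u _ => hcA _ (fun h' => hS (Finset.mem_of_mem_erase h')))
  have hcsec : ∀ S ⊆ insert g A, S.card = j → c S ∈ Sec W f m S := fun S hS hcard => by
    have hne : S.Nonempty := Finset.card_pos.1 (by omega)
    by_cases hgS : g ∈ S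
    · simp only [hc, if_pos hgS]
      exact sec_zero W f hne
    · rw [hcA S hgS]
      exact hb0 S (hsubA S hS hgS) hcard
  have hzz : ∀ S ⊆ insert g A, S.card = j + 1 → z S = h S - dd c S := fun S hS hcard => by
    by_cases hgS : g ∈ S
    · simp only [hzdef, if_pos hgS]
    · simp only [hzdef, if_neg hgS]
      rw [hddA S hgS, hb0d S (hsubA S hS hgS) hcard, sub_self]
  obtain ⟨b, hbz, hbs, hbd⟩ := key W f hf e hcov A hA g hgA hg0 m j z
    (fun S hS => by simp only [hzdef, if_neg hS])
    (fun S hS hcard hgS => by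
      rw [hzz S hS hcard]
      refine sec_sub W f hf (hh.1 S hS hcard) (sec_dd W f hf ⟨g, hgS⟩ c (fun u hu => ?_))
      exact hcsec _ ((Finset.erase_subset _ _).trans hS)
        (by rw [Finset.card_erase_of_mem hu, hcard]; rfl))
    (fun S hS hcard => by
      rw [dd_congr (c' := fun T => h T - dd c T) (fun u hu => hzz _
        ((Finset.erase_subset _ _).trans hS)
        (by rw [Finset.card_erase_of_mem hu, hcard]; rfl)), dd_sub, hh.2 S hS hcard,
        dd_dd_aux S c, sub_self])
  refine ⟨fun S => b S + c S, ?_, ?_⟩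
  · intro S hS hcard
    have hne : S.Nonempty := Finset.card_pos.1 (by omega)
    refine sec_add W f hf ?_ (hcsec S hS hcard)
    by_cases hgS : g ∈ S
    · exact hbs S hS hcard hgS
    · rw [hbz S hgS]
      exact sec_zero W f hne
  · intro S hS hcard
    rw [dd_add, ← hbd S hS hcard, hzz S hS hcard, sub_add_cancel]

include hf in
theorem extend_all [Fintype κ] {ι : Type} [Fintype ι] (e : ι → κ)
    (hcov : Cover W (fun i => f (e i))) (I : Finset κ) (hI : ∀ i, e i ∈ I)
    (hf0 : ∀ k, f k ≠ 0) (m : ℤ) (j : ℕ) (hj : 1 ≤ j) (h : Finset κ → L)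
    (hh : CyOn W f I m j h) (B : Finset κ) :
    ∃ h' : Finset κ → L, CyOn W f (I ∪ B) m j h' ∧ ∀ S ⊆ I, h' S = h S := by
  classical
  induction B using Finset.induction_on with
  | empty => exact ⟨h, by rwa [Finset.union_empty], fun _ _ => rfl⟩
  | insert g B _ ih =>
    obtain ⟨h1, hc1, he1⟩ := ih
    by_cases hg : g ∈ I ∪ B
    · refine ⟨h1, ?_, he1⟩
      rwa [Finset.union_insert, Finset.insert_eq_of_mem hg]
    · obtain ⟨h2, hc2, he2⟩ := extend_step W f hf e hcov (I ∪ B)
        (fun i => Finset.mem_union_left _ (hI i)) g hg (hf0 g) m j hj h1 hc1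
      refine ⟨h2, ?_, fun S hS => ?_⟩
      · rwa [Finset.union_insert]
      · rw [he2 S (hS.trans Finset.subset_union_left), he1 S hS]

include hf in
theorem bound_all [Fintype κ] {ι : Type} [Fintype ι] (e : ι → κ)
    (hcov : Cover W (fun i => f (e i))) (I : Finset κ) (hI : ∀ i, e i ∈ I)
    (hf0 : ∀ k, f k ≠ 0) (m : ℤ) (j : ℕ) (hj : 1 ≤ j) (h : Finset κ → L)
    (hh : CyOn W f Finset.univ m (j + 1) h)
    (hb : ∃ b : Finset κ → L, (∀ S ⊆ I, S.card = j → b S ∈ Sec W f m S) ∧
      ∀ S ⊆ I, S.card = j + 1 → h S = dd b S) (B : Finset κ) :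
    ∃ b : Finset κ → L, (∀ S ⊆ I ∪ B, S.card = j → b S ∈ Sec W f m S) ∧
      ∀ S ⊆ I ∪ B, S.card = j + 1 → h S = dd b S := by
  classical
  induction B using Finset.induction_on with
  | empty => rwa [Finset.union_empty]
  | insert g B _ ih =>
    by_cases hg : g ∈ I ∪ B
    · rwa [Finset.union_insert, Finset.insert_eq_of_mem hg]
    · rw [Finset.union_insert]
      exact bound_step W f hf e hcov (I ∪ B)
        (fun i => Finset.mem_union_left _ (hI i)) g hg (hf0 g) m j hj h
        ⟨fun S _ => hh.1 S (Finset.subset_univ _), fun S _ => hh.2 S (Finset.subset_univ _)⟩ ih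

end sec

section transport

variable {ι κ L : Type} [LinearOrder ι] [LinearOrder κ] {O : Type} [CommRing O] [Field L]
  [Algebra O L]

theorem dd_map (e : ι ↪o κ) (h : Finset κ → L) (S : Finset ι) :
    dd h (S.map e.toEmbedding) = dd (fun T => h (T.map e.toEmbedding)) S := by
  rw [dd_eq, dd_eq, Finset.sum_map]
  refine Finset.sum_congr rfl (fun u _ => ?_)
  have h1 : (S.map e.toEmbedding).erase (e.toEmbedding u) = (S.erase u).map e.toEmbedding := by
    rw [Finset.map_erase]
  have h2 : sg (e.toEmbedding u) (S.map e.toEmbedding) = sg u S := by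
    unfold sg
    rw [Finset.filter_map, Finset.card_map]
    congr 3
    ext v
    simp
  rw [h1, h2]

theorem sec_map (W : Submodule O L) (f : κ → L) (e : ι ↪o κ) (m : ℤ) (S : Finset ι) :
    Sec W f m (S.map e.toEmbedding) = Sec W (fun i => f (e i)) m S := by
  unfold Sec
  rw [Finset.prod_map, Finset.card_map]
  rfl

theorem ref : S_REF := by
  intro O L ι κ _ _ _ _ _ _ _ e W f m j hfW hf0 hcov hj
  classical
  set I : Finset κ := Finset.univ.map e.toEmbedding with hI
  have heI : ∀ i, e i ∈ I := fun i => Finset.mem_map.2 ⟨i, Finset.mem_univ i, rfl⟩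
  have hpre : ∀ S ⊆ I, ∃ T : Finset ι, S = T.map e.toEmbedding := by
    intro S hS
    obtain ⟨T, _, hT⟩ := Finset.subset_map_iff.1 hS
    exact ⟨T, hT⟩
  constructor
  · intro c hc
    have hinj : Function.Injective (fun T : Finset ι => T.map e.toEmbedding) :=
      Finset.map_injective _
    set h0 : Finset κ → L := Function.extend (fun T : Finset ι => T.map e.toEmbedding) c 0 with hh0
    have hh0map : ∀ T : Finset ι, h0 (T.map e.toEmbedding) = c T := fun T =>
      hinj.extend_apply c 0 T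
    have hcy : CyOn W f I m j h0 := by
      constructor
      · intro S hS hcard
        obtain ⟨T, rfl⟩ := hpre S hS
        rw [hh0map, sec_map]
        exact hc.1 T (by rwa [Finset.card_map] at hcard)
      · intro S hS hcard
        obtain ⟨T, rfl⟩ := hpre S hS
        rw [dd_map]
        rw [dd_congr (c' := c) (fun u _ => hh0map _)]
        exact hc.2 T (by rwa [Finset.card_map] at hcard)
    obtain ⟨h, hh, he⟩ := extend_all W f hfW e hcov I heI hf0 m j (by omega) h0 hcy Finset.univ
    rw [Finset.union_eq_right.2 (Finset.subset_univ I)] at hh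
    refine ⟨h, ⟨fun S hS => hh.1 S (Finset.subset_univ _) hS,
      fun S hS => hh.2 S (Finset.subset_univ _) hS⟩, fun S _ => ?_⟩
    rw [he (S.map e.toEmbedding) (Finset.map_subset_map.2 (Finset.subset_univ _)), hh0map]
  · intro h hh hb
    obtain ⟨j, rfl⟩ : ∃ j', j = j' + 1 := ⟨j - 1, by omega⟩
    obtain ⟨b, hbc, hbd⟩ := hb
    have hinj : Function.Injective (fun T : Finset ι => T.map e.toEmbedding) :=
      Finset.map_injective _
    set b0 : Finset κ → L := Function.extend (fun T : Finset ι => T.map e.toEmbedding) b 0 with hb0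
    have hb0map : ∀ T : Finset ι, b0 (T.map e.toEmbedding) = b T := fun T =>
      hinj.extend_apply b 0 T
    obtain ⟨b', hb', hbd'⟩ := bound_all W f hfW e hcov I heI hf0 m j (by omega) h
      ⟨fun S _ hS => hh.1 S hS, fun S _ hS => hh.2 S hS⟩
      ⟨b0, fun S hS hcard => by
          obtain ⟨T, rfl⟩ := hpre S hS
          rw [hb0map, sec_map]
          exact hbc T (by rwa [Finset.card_map] at hcard),
        fun S hS hcard => by
          obtain ⟨T, rfl⟩ := hpre S hS
          rw [dd_map, dd_congr (c' := b) (fun u _ => hb0map _)]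
          exact hbd T (by rwa [Finset.card_map] at hcard)⟩ Finset.univ
    rw [Finset.union_eq_right.2 (Finset.subset_univ I)] at hb' hbd'
    exact ⟨b', fun S hS => hb' S (Finset.subset_univ _) hS,
      fun S hS => hbd' S (Finset.subset_univ _) hS⟩

end transport

end Pool.Agent.Y340.GS
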